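import Mathlib
import Pool.Agent.Helper56.TOF.Goals2

/-! # Project TOF, packet BAS: visits of a basin orbit to the complement of the support -/

set_option autoImplicit false

open Set Filter Topology MeasureTheory

open scoped ContDiff

namespace Pool.Agent.Helper17.TOF

open Pool.Agent.Helper56.TOF Pool.Agent.Helper56.RZ Pool.Agent.Helper30.CIR

theorem gBAS : StmtBAS := by
  classical
  intro K M f μ x n L η δ hM hf hμ hμM hb hx hn hL hη hδ
  set Λ : Set (E K) := {z | z ∈ M ∧ InSupport μ z} with hΛ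
  have hnull : μ Λᶜ = 0 := by
    have h1 : μ {z | ¬ InSupport μ z} = 0 := by
      refine measure_null_of_locally_null _ fun z hz => ?_
      have hz' : ¬ InSupport μ z := hz
      unfold InSupport at hz'
      push Not at hz'
      obtain ⟨U, hU, hzU, h0⟩ := hz'
      exact ⟨U, mem_nhdsWithin_of_mem_nhds (hU.mem_nhds hzU), h0⟩
    have h2 : Λᶜ ⊆ Mᶜ ∪ {z | ¬ InSupport μ z} := by
      intro z hz
      by_cases h : z ∈ M
      · right
        intro h'
        exact hz ⟨h, h'⟩
      · exact Or.inl h
    refine measure_mono_null h2 ?_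
    exact measure_union_null hμM h1
  have hne : Λ.Nonempty := by
    by_contra h
    rw [not_nonempty_iff_eq_empty] at h
    rw [h, compl_empty] at hnull
    simp at hnull
  set φ : E K → ℝ := fun y => min 1 (Metric.infDist y Λ / η) with hφ
  have hφ0 : ∀ y, 0 ≤ φ y := fun y => le_min zero_le_one (div_nonneg Metric.infDist_nonneg hη.le)
  have hφc : Continuous φ := continuous_const.min ((Metric.continuous_infDist_pt _).div_const _)
  have hφi : ∫ y, φ y ∂μ = 0 := by
    have h1 : φ =ᵐ[μ] 0 := by
      have h2 : ∀ᵐ y ∂μ, y ∈ Λ := by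
        rw [ae_iff]
        exact hnull
      filter_upwards [h2] with y hy
      simp [hφ, Metric.infDist_zero_of_mem hy]
    rw [integral_congr_ae h1]
    simp
  have ht := hb φ hφc.continuousOn
  rw [hφi] at ht
  have hnL : 0 < n * L := Nat.mul_pos hn hL
  have hnL' : (0 : ℝ) < (n * L : ℕ) := by exact_mod_cast hnL
  have hev := ht.eventually_lt_const (show (0 : ℝ) < δ / (n * L : ℕ) from by positivity)
  obtain ⟨N0, hN0⟩ := eventually_atTop.1 hev
  filter_upwards [eventually_ge_atTop (N0 + 1)] with J hJ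
  set B : Finset ℕ := (Finset.range J).filter (fun j => (f^[n])^[j * L] x ∉
    {y | ∃ z, z ∈ M ∧ InSupport μ z ∧ ‖y - z‖ < η}) with hB
  have hset : {j | j < J ∧ (f^[n])^[j * L] x ∉
      {y | ∃ z, z ∈ M ∧ InSupport μ z ∧ ‖y - z‖ < η}} = (B : Set ℕ) := by
    ext j
    simp only [hB, Finset.coe_filter, Finset.mem_range, mem_ofPred_eq]
  change ((Set.ncard {j | j < J ∧ (f^[n])^[j * L] x ∉
      {y | ∃ z, z ∈ M ∧ InSupport μ z ∧ ‖y - z‖ < η}} : ℕ) : ℝ) ≤ δ * J
  rw [hset, Set.ncard_coe_finset]
  have hone : ∀ j ∈ B, φ (f^[n * (j * L)] x) = 1 := by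
    intro j hj
    rw [hB, Finset.mem_filter] at hj
    have h1 := hj.2
    rw [← Function.iterate_mul] at h1
    have h2 : η ≤ Metric.infDist (f^[n * (j * L)] x) Λ := by
      rw [Metric.le_infDist hne]
      intro z hz
      by_contra h3
      push Not at h3
      refine h1 ⟨z, hz.1, hz.2, ?_⟩
      rwa [← dist_eq_norm]
    simp only [hφ]
    rw [min_eq_left]
    rw [le_div_iff₀ hη]
    linarith
  have hinj : Set.InjOn (fun j : ℕ => n * (j * L)) (B : Set ℕ) := by
    intro a _ b _ hab
    have h1 : n * (a * L) = n * (b * L) := hab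
    have h2 : a * L = b * L := Nat.eq_of_mul_eq_mul_left hn h1
    exact Nat.eq_of_mul_eq_mul_right hL h2
  have hcard : (B.card : ℝ) ≤ ∑ k ∈ Finset.range (n * L * J), φ (f^[k] x) := by
    calc (B.card : ℝ) = ∑ j ∈ B, φ (f^[n * (j * L)] x) := by
          rw [Finset.sum_congr rfl hone]
          simp
      _ = ∑ k ∈ B.image (fun j : ℕ => n * (j * L)), φ (f^[k] x) := by
          rw [Finset.sum_image hinj]
      _ ≤ ∑ k ∈ Finset.range (n * L * J), φ (f^[k] x) := by
          refine Finset.sum_le_sum_of_subset_of_nonneg ?_ (fun k _ _ => hφ0 _)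
          intro k hk
          rw [Finset.mem_image] at hk
          obtain ⟨j, hj, rfl⟩ := hk
          rw [hB, Finset.mem_filter, Finset.mem_range] at hj
          rw [Finset.mem_range]
          calc n * (j * L) = n * L * j := by ring
            _ < n * L * J := Nat.mul_lt_mul_of_pos_left hj.1 hnL
  have hJ0 : 0 < J := by omega
  have h5 : N0 ≤ n * L * J := by
    calc N0 ≤ J := by omega
      _ ≤ n * L * J := Nat.le_mul_of_pos_left _ hnL
  have h6 := hN0 _ h5
  have h7 : (0 : ℝ) < (n * L * J : ℕ) := by exact_mod_cast Nat.mul_pos hnL hJ0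
  rw [div_lt_iff₀ h7] at h6
  have h8 : δ / (n * L : ℕ) * (n * L * J : ℕ) = δ * J := by
    push_cast
    push_cast at hnL'
    field_simp
  rw [h8] at h6
  linarith

end Pool.Agent.Helper17.TOF
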