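import Mathlib
import Pool.Agent.Helper56.TOF.Goals

/-! # Project TOF, packet CLC: `C^r` closeness of `x ↦ A (1 + u x) x` -/

set_option autoImplicit false

open Set Filter Topology MeasureTheory Asymptotics

open scoped ContDiff

namespace Pool.Agent.Helper17.TOF

open Pool.Agent.Helper56.TOF Pool.Agent.Helper56.RZ Pool.Agent.Helper30.CIR

/-- Faà di Bruno within open sets -/
theorem fdb {X Y Z : Type*} [NormedAddCommGroup X] [NormedSpace ℝ X] [NormedAddCommGroup Y]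
    [NormedSpace ℝ Y] [NormedAddCommGroup Z] [NormedSpace ℝ Z] {r : ℕ} {V : Set X} {U : Set Y}
    (hV : IsOpen V) (hU : IsOpen U) {F : Y → Z} {g : X → Y} (hF : ContDiffOn ℝ r F U)
    (hg : ContDiffOn ℝ r g V) (hm : MapsTo g V U) {k : ℕ} (hk : k ≤ r) {z : X} (hz : z ∈ V) :
    iteratedFDerivWithin ℝ k (F ∘ g) V z =
      (ftaylorSeriesWithin ℝ F U (g z)).taylorComp (ftaylorSeriesWithin ℝ g V z) k := by
  have h1 := hF.ftaylorSeriesWithin hU.uniqueDiffOn
  have h2 := hg.ftaylorSeriesWithin hV.uniqueDiffOn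
  have h3 := h1.comp h2 hm
  exact (h3.eq_iteratedFDerivWithin_of_uniqueDiffOn (by exact_mod_cast hk) hV.uniqueDiffOn hz).symm

/-- one chart, one order -/
theorem core {N K r k : ℕ} (hk : k ≤ r) {V : Set (E N)} (hV : IsOpen V) {F : ℝ × E N → E K}
    (hF : ContDiffOn ℝ r F (univ ×ˢ V)) {L : Set (E N)} (hL : IsCompact L) (hLV : L ⊆ V)
    {ε : ℝ} (hε : 0 < ε) :
    ∃ δ > 0, ∀ w : E N → ℝ, ContDiffOn ℝ r w V → ∀ z ∈ L,
      (∀ j ≤ r, ‖iteratedFDeriv ℝ j w z‖ ≤ δ) →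
      ‖iteratedFDeriv ℝ k (fun z => F (1 + w z, z) - F (1, z)) z‖ ≤ ε := by
  by_contra hcon
  push Not at hcon
  have hU : IsOpen ((univ : Set ℝ) ×ˢ V) := isOpen_univ.prod hV
  choose w hw z hz hd hbad using fun n : ℕ => hcon (1 / ((n : ℝ) + 1)) (by positivity)
  have hlim : Tendsto (fun n : ℕ => 1 / ((n : ℝ) + 1)) atTop (𝓝 0) :=
    tendsto_one_div_add_atTop_nhds_zero_nat
  have hzV : ∀ n, z n ∈ V := fun n => hLV (hz n)
  have hdw : ∀ j ≤ r, Tendsto (fun n => ‖iteratedFDeriv ℝ j (w n) (z n)‖) atTop (𝓝 0) := by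
    intro j hj
    exact squeeze_zero (fun n => norm_nonneg _) (fun n => hd n j hj) hlim
  have hw0 : Tendsto (fun n => w n (z n)) atTop (𝓝 0) := by
    have h := hdw 0 (Nat.zero_le _)
    simp only [norm_iteratedFDeriv_zero] at h
    exact tendsto_zero_iff_norm_tendsto_zero.2 h
  -- the compact set
  set Q : Set (ℝ × E N) := Icc 0 2 ×ˢ L with hQ
  have hQc : IsCompact Q := isCompact_Icc.prod hL
  have hQU : Q ⊆ univ ×ˢ V := prod_mono (subset_univ _) hLV
  have hwabs : ∀ n, |w n (z n)| ≤ 1 := by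
    intro n
    have h := hd n 0 (Nat.zero_le _)
    rw [norm_iteratedFDeriv_zero, Real.norm_eq_abs] at h
    refine h.trans ?_
    rw [div_le_one (by positivity)]
    have : (0 : ℝ) ≤ n := Nat.cast_nonneg n
    linarith
  have hQ1 : ∀ n, ((1 + w n (z n), z n) : ℝ × E N) ∈ Q := by
    intro n
    have h := abs_le.1 (hwabs n)
    exact ⟨⟨by linarith, by linarith⟩, hz n⟩
  have hQ2 : ∀ n, ((1, z n) : ℝ × E N) ∈ Q := fun n => ⟨⟨by norm_num, by norm_num⟩, hz n⟩
  have hFc : ∀ j ≤ r, ContinuousOn (iteratedFDerivWithin ℝ j F (univ ×ˢ V)) (univ ×ˢ V) := by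
    intro j hj
    exact hF.continuousOn_iteratedFDerivWithin (by exact_mod_cast hj) hU.uniqueDiffOn
  set g0 : E N → ℝ × E N := fun z => (1, z) with hg0
  set g : ℕ → E N → ℝ × E N := fun n z => (1 + w n z, z) with hg
  have hg0s : ContDiff ℝ r g0 := contDiff_const.prodMk contDiff_id
  have hgs : ∀ n, ContDiffOn ℝ r (g n) V := fun n =>
    (contDiffOn_const.add (hw n)).prodMk contDiffOn_id
  have hgm : ∀ n, MapsTo (g n) V (univ ×ˢ V) := fun n z hz => ⟨mem_univ _, hz⟩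
  have hg0m : MapsTo g0 V (univ ×ˢ V) := fun z hz => ⟨mem_univ _, hz⟩
  have hbdd0 : ∀ j ≤ r, ∃ C, ∀ n, ‖iteratedFDerivWithin ℝ j g0 V (z n)‖ ≤ C := by
    intro j hj
    have hc : ContinuousOn (iteratedFDerivWithin ℝ j g0 V) V :=
      hg0s.contDiffOn.continuousOn_iteratedFDerivWithin (by exact_mod_cast hj) hV.uniqueDiffOn
    obtain ⟨C, hC⟩ := hL.exists_bound_of_continuousOn (hc.mono hLV)
    exact ⟨C, fun n => hC _ (hz n)⟩
  -- difference of the inner functions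
  have hdiff : ∀ j ≤ r, Tendsto (fun n => iteratedFDerivWithin ℝ j (g n) V (z n) -
      iteratedFDerivWithin ℝ j g0 V (z n)) atTop (𝓝 0) := by
    intro j hj
    have e1 : ∀ n, iteratedFDerivWithin ℝ j (g n) V (z n) -
        iteratedFDerivWithin ℝ j g0 V (z n) =
        (ContinuousLinearMap.inl ℝ ℝ (E N)).compContinuousMultilinearMap
          (iteratedFDerivWithin ℝ j (w n) V (z n)) := by
      intro n
      have hj' : ((j : ℕ) : WithTop ℕ∞) ≤ (r : WithTop ℕ∞) := by exact_mod_cast hj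
      have h2 : (g n) = fun z => (ContinuousLinearMap.inl ℝ ℝ (E N) ∘ (w n)) z + g0 z := by
        funext y
        simp [hg, hg0, add_comm]
      have h3 := ContinuousLinearMap.iteratedFDerivWithin_comp_left
        (ContinuousLinearMap.inl ℝ ℝ (E N)) ((hw n).contDiffWithinAt (hzV n))
        hV.uniqueDiffOn (hzV n) (i := j) hj'
      have h4 : ContDiffOn ℝ j (ContinuousLinearMap.inl ℝ ℝ (E N) ∘ (w n)) V :=
        (ContinuousLinearMap.contDiff _).comp_contDiffOn ((hw n).of_le hj')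
      have h5 : ContDiffOn ℝ j g0 V := (hg0s.contDiffOn).of_le hj'
      rw [h2]
      have h6 := iteratedFDerivWithin_add_apply (h4.contDiffWithinAt (hzV n))
        (h5.contDiffWithinAt (hzV n)) hV.uniqueDiffOn (hzV n)
      have h7 : iteratedFDerivWithin ℝ j
          (fun z => (ContinuousLinearMap.inl ℝ ℝ (E N) ∘ (w n)) z + g0 z) V (z n) =
          iteratedFDerivWithin ℝ j (ContinuousLinearMap.inl ℝ ℝ (E N) ∘ (w n)) V (z n) +
          iteratedFDerivWithin ℝ j g0 V (z n) := h6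
      rw [h7, h3]
      abel
    rw [tendsto_zero_iff_norm_tendsto_zero]
    have h8 : Tendsto (fun n => ‖ContinuousLinearMap.inl ℝ ℝ (E N)‖ *
        ‖iteratedFDeriv ℝ j (w n) (z n)‖) atTop (𝓝 0) := by
      have := (hdw j hj).const_mul ‖ContinuousLinearMap.inl ℝ ℝ (E N)‖
      rwa [mul_zero] at this
    refine squeeze_zero (fun n => norm_nonneg _) (fun n => ?_) h8
    rw [e1, ← iteratedFDerivWithin_of_isOpen j hV (hzV n)]
    exact ContinuousLinearMap.norm_compContinuousMultilinearMap_le _ _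
  have hp_bdd : ∀ j ≤ k, (atTop : Filter ℕ).IsBoundedUnder (· ≤ ·)
      (fun n => ‖ftaylorSeriesWithin ℝ F (univ ×ˢ V) (g n (z n)) j‖) := by
    intro j hj
    obtain ⟨C, hC⟩ := hQc.exists_bound_of_continuousOn ((hFc j (hj.trans hk)).mono hQU)
    exact isBoundedUnder_of ⟨C, fun n => hC _ (hQ1 n)⟩
  have hpf : ∀ j ≤ k, (fun n => ftaylorSeriesWithin ℝ F (univ ×ˢ V) (g n (z n)) j -
      ftaylorSeriesWithin ℝ F (univ ×ˢ V) (g0 (z n)) j) =o[atTop] (fun _ => (1 : ℝ)) := by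
    intro j hj
    rw [isLittleO_one_iff]
    have hu := hQc.uniformContinuousOn_of_continuous ((hFc j (hj.trans hk)).mono hQU)
    rw [Metric.uniformContinuousOn_iff] at hu
    rw [Metric.tendsto_nhds]
    intro e he
    obtain ⟨d, hd0, hd1⟩ := hu e he
    have h9 : ∀ᶠ n in atTop, ‖w n (z n)‖ < d := by
      have := (tendsto_zero_iff_norm_tendsto_zero.1 hw0).eventually_lt_const hd0
      exact this
    filter_upwards [h9] with n hn
    rw [dist_zero_right, ← dist_eq_norm]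
    refine hd1 _ (hQ1 n) _ (hQ2 n) ?_
    show dist ((1 + w n (z n), z n) : ℝ × E N) ((1, z n) : ℝ × E N) < d
    rw [Prod.dist_eq, max_lt_iff]
    refine ⟨?_, by simpa using hd0⟩
    rw [dist_eq_norm]
    simpa using hn
  have hq₂ : ∀ j ≤ k, (atTop : Filter ℕ).IsBoundedUnder (· ≤ ·)
      (fun n => ‖ftaylorSeriesWithin ℝ g0 V (z n) j‖) := by
    intro j hj
    obtain ⟨C, hC⟩ := hbdd0 j (hj.trans hk)
    exact isBoundedUnder_of ⟨C, fun n => hC n⟩
  have hqf : ∀ j ≤ k, (fun n => ftaylorSeriesWithin ℝ (g n) V (z n) j -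
      ftaylorSeriesWithin ℝ g0 V (z n) j) =o[atTop] (fun _ => (1 : ℝ)) := by
    intro j hj
    rw [isLittleO_one_iff]
    exact hdiff j (hj.trans hk)
  have hq₁ : ∀ j ≤ k, (atTop : Filter ℕ).IsBoundedUnder (· ≤ ·)
      (fun n => ‖ftaylorSeriesWithin ℝ (g n) V (z n) j‖) := by
    intro j hj
    obtain ⟨C, hC⟩ := hbdd0 j (hj.trans hk)
    have h10 := (tendsto_zero_iff_norm_tendsto_zero.1 (hdiff j (hj.trans hk))).eventually_lt_const
      one_pos
    refine ⟨C + 1, ?_⟩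
    rw [eventually_map]
    filter_upwards [h10] with n hn
    have h11 : ‖iteratedFDerivWithin ℝ j (g n) V (z n)‖ ≤
        ‖iteratedFDerivWithin ℝ j (g n) V (z n) - iteratedFDerivWithin ℝ j g0 V (z n)‖ +
        ‖iteratedFDerivWithin ℝ j g0 V (z n)‖ := by
      have := norm_add_le (iteratedFDerivWithin ℝ j (g n) V (z n) -
        iteratedFDerivWithin ℝ j g0 V (z n)) (iteratedFDerivWithin ℝ j g0 V (z n))
      rwa [sub_add_cancel] at this
    have h12 := hC n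
    show ‖iteratedFDerivWithin ℝ j (g n) V (z n)‖ ≤ C + 1
    linarith
  have key := FormalMultilinearSeries.taylorComp_sub_taylorComp_isLittleO (𝕜 := ℝ)
    (l := (atTop : Filter ℕ)) (f := fun _ : ℕ => (1 : ℝ)) (n := k)
    (p₁ := fun n => ftaylorSeriesWithin ℝ F (univ ×ˢ V) (g n (z n)))
    (p₂ := fun n => ftaylorSeriesWithin ℝ F (univ ×ˢ V) (g0 (z n)))
    (q₁ := fun n => ftaylorSeriesWithin ℝ (g n) V (z n))
    (q₂ := fun n => ftaylorSeriesWithin ℝ g0 V (z n)) hp_bdd hpf hq₁ hq₂ hqf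
  rw [isLittleO_one_iff, tendsto_zero_iff_norm_tendsto_zero] at key
  obtain ⟨n, hn⟩ := (key.eventually_lt_const hε).exists
  have hb := hbad n
  have hk' : ((k : ℕ) : WithTop ℕ∞) ≤ (r : WithTop ℕ∞) := by exact_mod_cast hk
  have h13 : ContDiffOn ℝ k (F ∘ g n) V := (hF.comp (hgs n) (hgm n)).of_le hk'
  have h14 : ContDiffOn ℝ k (F ∘ g0) V := (hF.comp hg0s.contDiffOn hg0m).of_le hk'
  have h15 : iteratedFDeriv ℝ k (fun z => F (1 + w n z, z) - F (1, z)) (z n) =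
      iteratedFDerivWithin ℝ k (F ∘ g n) V (z n) - iteratedFDerivWithin ℝ k (F ∘ g0) V (z n) := by
    rw [← iteratedFDerivWithin_of_isOpen k hV (hzV n)]
    exact iteratedFDerivWithin_sub_apply (h13.contDiffWithinAt (hzV n))
      (h14.contDiffWithinAt (hzV n)) hV.uniqueDiffOn (hzV n)
  rw [h15, fdb hV hU hF (hgs n) (hgm n) hk (hzV n),
    fdb hV hU hF hg0s.contDiffOn hg0m hk (hzV n)] at hb
  exact absurd hn (not_lt.2 hb.le)

theorem gCLC : StmtCLC := by
  intro N K r s M A hrs hA ι _ c L hL ε hε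
  have h1 : ∀ i, ∀ k : Fin (r + 1), ∃ δ > 0, ∀ w : E N → ℝ, ContDiffOn ℝ r w (c i).V →
      ∀ z ∈ L i, (∀ j ≤ r, ‖iteratedFDeriv ℝ j w z‖ ≤ δ) →
      ‖iteratedFDeriv ℝ k (fun z => A (1 + w z) ((c i).ψ z) - A 1 ((c i).ψ z)) z‖ ≤ ε := by
    intro i k
    have hF : ContDiffOn ℝ r (fun p : ℝ × E N => A p.1 ((c i).ψ p.2)) (univ ×ˢ (c i).V) := by
      have h2 : ContDiffOn ℝ r (fun p : ℝ × E N => (p.1, (c i).ψ p.2)) (univ ×ˢ (c i).V) := by
        refine contDiff_fst.contDiffOn.prodMk ?_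
        have h3 : ContDiffOn ℝ r (c i).ψ (c i).V := (c i).smoothψ.of_le (by exact_mod_cast le_top)
        exact h3.comp contDiff_snd.contDiffOn (fun p hp => hp.2)
      have h4 : ContDiffOn ℝ r (fun p : ℝ × E K => A p.1 p.2) (univ ×ˢ M) := hA.smooth.of_le hrs
      exact h4.comp h2 (fun p hp => ⟨mem_univ _, ((c i).mapsψ _ hp.2).1⟩)
    exact core (Nat.lt_succ_iff.1 k.2) (c i).openV hF (hL i).1 (hL i).2 hε
  choose δ hδ0 hδ using h1
  have h2 : ∃ d > 0, ∀ i k, d ≤ δ i k := by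
    by_cases hι : Nonempty ι
    · obtain ⟨i0, hi0⟩ := Finite.exists_min (fun p : ι × Fin (r + 1) => δ p.1 p.2)
      exact ⟨δ i0.1 i0.2, hδ0 _ _, fun i k => hi0 (i, k)⟩
    · exact ⟨1, one_pos, fun i => absurd ⟨i⟩ hι⟩
  obtain ⟨d, hd0, hd⟩ := h2
  refine ⟨d, hd0, fun u hu hsm i k hk z hz => ?_⟩
  have h3 : ContDiffOn ℝ r (fun z => u ((c i).ψ z)) (c i).V :=
    hu.comp ((c i).smoothψ.of_le (by exact_mod_cast le_top)) (fun z hz => ((c i).mapsψ z hz).1)
  exact hδ i ⟨k, Nat.lt_succ_of_le hk⟩ _ h3 z hz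
    (fun j hj => (hsm i j hj z hz).trans (hd i ⟨k, Nat.lt_succ_of_le hk⟩))

end Pool.Agent.Helper17.TOF
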